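import Mathlib

set_option autoImplicit false

open Finset

namespace Pool.Agent.Results.MP_3f0bb6_co.Full

/-- A perfect matching of the complete graph on `V`, given by the map sending each vertex to its
partner (a fixed-point-free involution). -/
def IsPM {V : Type} (m : V → V) : Prop := ∀ x, m x ≠ x ∧ m (m x) = x

/-- `(n-3,3)`-factorisation of `K_(2n)` of index `c`. -/
def IsFact (n c : ℕ) (D : Finset (Fin (2 * n) → Fin (2 * n))) : Prop :=
  D.Nonempty ∧ (∀ m ∈ D, IsPM m) ∧ 0 < c ∧
    ∀ S : Finset (Fin (2 * n)), #S = 6 → #{m ∈ D | ∀ x ∈ S, m x ∈ S} = c

def L : List ℕ :=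
  [1264204335531, 1328261076651, 1328881505451, 1406692565931, 1457731568811, 1591608699051,
  1689339175851, 2431358704251, 2574909839931, 2625451297371, 3441685866891, 3583732459611,
  3668582704971, 3716374046091, 3887283479931, 4480278628251, 4614161864811, 4746787845771,
  4823670490491, 4986816308091, 5653916031291, 5993939437131, 6740048828811, 6835610424651,
  7186189457211, 7776645830811, 7849610938731, 7922694787371, 8055774413931, 8133216904011,
  8287711086171, 8909492536731, 8977308285291, 8977377229131, 9114226349691, 9183774073131,
  9252860204091, 10588826968971, 10592284932171, 10592553736251, 10605104886891, 10605390403131,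
  17761927645626, 17817255056826, 17821555922106, 18022374332346, 18026942592186, 19823476435641,
  19998784789176, 20080700787381, 20908528412601, 20909631514041, 21049710651831, 21055413463476,
  21166226515896, 21266540176566, 21400081768626, 22222832572341, 22335568094136, 22424989626546,
  22434916487346, 22482365581491, 22578696185271, 23099217443001, 23328158946996, 23679893455026,
  24211981018041, 24344848267701, 24464842119096, 24496517501106, 24685762872756, 24779183752371,
  25317359113401, 25450424330676, 25574970583221, 25587847071411, 25703921960376, 26638551584946,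
  26706914670006, 28175828874936, 28184975272116, 28185303664821, 28187960706231, 28202239213746,
  35271167474586, 35417509829466, 35422764112746, 35465276775306, 35693732895546, 36508572097446,
  36642103528356, 36659753151396, 36717835013031, 36767406644136, 36873458617251, 38843711007591,
  38896450120536, 38901019356036, 38992264342356, 39073050110721, 39605630540601, 39678392273811,
  39958288689921, 40027102534401, 40078773226341, 40171636161366, 40699439901561, 40763612629911,
  40765273181076, 40889190161256, 40989048245091, 41095213972296, 41270418742071, 41882541575061,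
  42370291751796, 42952412195736, 43240197098241, 43313286093621, 43313289255681, 43472115866421,
  44231301372741, 44298344688471, 44506957224756, 45772591033221, 45793078762311, 45799388289846,
  52936571337066, 53264375002506, 53365327443066, 54229340764326, 54320750048421, 55045465291416,
  55256104417926, 55282673236566, 55338096704001, 55484937779781, 55564013255271, 57206836475241,
  57265344919446, 57544384622706, 57679574382081, 57763642914561, 58279529526921, 58443845515521,
  58863074260806, 59650023731496, 59680887517266, 59722234378116, 59963280437541, 59963281485906,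
  60561725896086, 60566060185236, 60639167953236, 60819447657576, 60819498250536, 60892591272066,
  61064301949221, 61617330107481, 61685737369746, 61891033020261, 62099087734356, 62099143439361,
  63360724022376, 63365002212486, 63368016083031, 63376839980661, 63382568939586, 63391660028196,
  70463908435866, 70532359477626, 70580581406346, 70721763768426, 70813427111226, 70958884528986,
  71500505503401, 71627984042406, 72057254274981, 72595021699641, 72659698911891, 72911693769336,
  72981042395736, 72993389382261, 74101767776001, 74150766683736, 74257039860006, 75879752107881,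
  75960937030551, 76029924936051, 76454757602871, 76455026034291, 77035241953176, 77036051440536,
  77116307376471, 77193892565106, 77341801513251, 77458024634421, 78205539785016, 78656441110626,
  79208627533401, 79209518813481, 79346626423041, 79621060784421, 79691258725731, 80952910619496,
  80956466333571, 80961865472001, 80964699784566, 80966157304101, 80973044327271, 80973061101111,
  88056102340506, 88112993765706, 88199379980586, 88244728981626, 88268049294186, 88378241664906,
  88378510046346, 89078472668841, 89092733150121, 89348753688486, 89569809794211, 89649736741026,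
  90241636928151, 90254588725911, 90604645190211, 90647712451206, 90656369707521, 91286454903081,
  91329924342936, 91538683700871, 91689393365106, 91751518939206, 91751586375681, 92523137235201,
  92780046719031, 94636562909331, 94782055028481, 95146589889351, 95677404685161, 95746140931731,
  95943692716131, 96085560295716, 96248668513281, 96800571746121, 96869542819476, 97006159828071,
  98544345552696, 98548841608326, 98553136511046, 98557717086306, 98569913639796, 98575987197441,
  105636254876826, 105708191766906, 105776910210426, 105850199414586, 106045344270426,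
  106142521192746, 106666773677481, 106996956350376, 107014404993186, 107157747934116,
  107242572693666, 107770310851161, 107853258971796, 107979965831751, 108032847055491,
  108096736295496, 108240075819651, 108248665786881, 109158928590081, 109352468390181,
  109956182988681, 110307839738151, 110541108028161, 111193408698756, 111257564845896,
  111266692044801, 111338901307506, 111639817045761, 113402894977281, 113407189080321,
  113463020131461, 113527446119256, 113604763326516, 113840979248451, 114530055424371,
  114598772512116, 114599851495716, 114668571525411, 114875798999106, 116137177600296,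
  116140397512071, 116154630148146, 123238525313946, 123290043902346, 123517766079546,
  124398158121381, 124544178806946, 124608587499171, 125648064043521, 125935757429331,
  126455470205001, 126601410423126, 126721758699816, 126790464348456, 126799054284801,
  127554943608921, 127572207346521, 127627908777366, 127683761166696, 127773943959846,
  127898549381121, 127963067188611, 128671727821641, 128714576971416, 128809166768451,
  128929292163126, 129071176647681, 129234284601636, 129827101573266, 129831394608531,
  129951652287576, 130024666112901, 130106279858226, 131987367400761, 132124826995011,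
  132193494341121, 132262266470691, 132330921403236, 132399766913106, 133731107038536,
  133743943975206, 133748325098241, 133756958753061, 133756963065906, 140854579127706,
  141059970114426, 141130068082986, 141268206560106, 141268275565626, 141885644629161,
  142091510847141, 142092133242276, 142367699191206, 142367730648741, 143053285587606,
  143258724932151, 143258953542261, 143327413496391, 143397573839361, 144084998137161,
  144152591771541, 144221871253761, 144359512711266, 144427176732276, 144566722340166,
  145183675674921, 145251536361111, 145595516461941, 146284029748041, 146352749159316,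
  146419757566311, 146488728654966, 146695843680306, 146765821378851, 147382508668761,
  147452039537556, 147589203202341, 147589478519076, 147725577491511, 147726382755906,
  147865426088961, 148484036826681, 148621488122181, 148758880407846, 151368607671126,
  151368915551811, 159107374073466, 159112300164426, 160185995916456, 160198023284391,
  160204008727461, 160212081660066, 160217314837926, 160217364981156, 161289779706501,
  161298863131236, 161302150908531, 161307219683841, 161310517185111, 161316825418326,
  162385216644456, 162388959930246, 162407334846756, 163492497348726, 163505135821671,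
  163505941147746, 163509540889431, 163515899469906, 164583493215096, 164589180421251,
  164592838183011, 164593475471361, 164609598166836, 165687124448391, 165688197449091,
  165692222502996, 165700008678711, 165715042968321, 166793461319781, 166806337754166,
  166810762936611, 167924702007591, 167924952229236, 167924954652786, 167925258602241,
  167925457973346, 167925980930886, 167926362690561, 188022200345481, 188026203891801,
  188026242668601, 188031105859881, 188034295797561, 188042663118201, 188048771273001,
  188095147493526, 188104119439506, 188107278280596, 188158292941191, 188167170853236,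
  188172473993571, 188175460952391, 188186142792006, 188223204988776, 188231572691061,
  188239861814871, 188244666980166, 188254863593766, 188296557326466, 188317808789331,
  188364440626311, 188370413226051, 188392324415586, 188429227938936, 188433788258181,
  188438355998721, 188446673475381, 188451513631011, 188461169517396, 188500030858056,
  188504269342341, 188504273651331, 188512826721366, 188517173454081, 188521491337266,
  188604989260071, 188605205382771, 188605222183026, 188606006629941, 188606024474706]

def dg (k i : ℕ) : ℕ := k / 16 ^ i % 16 % 12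

def fn (k : ℕ) (i : Fin 12) : Fin 12 := ⟨dg k i, Nat.mod_lt _ (by omega)⟩

def cl (s k : ℕ) : Bool := (List.range 12).all fun i => !s.testBit i || s.testBit (dg k i)

def d (x s : ℕ) : ℕ := x / 2 ^ (9 * s) % 2 ^ 9

lemma d_succ (x s : ℕ) : d x (s + 1) = d (x / 512) s := by
  rw [d, d, Nat.div_div_eq_div_mul, mul_add, pow_add, mul_comm (2 ^ (9 * s))]; rfl

lemma d_add : ∀ s x y : ℕ, (∀ t, d x t + d y t < 512) → d (x + y) s = d x s + d y s
  | 0, x, y, h => by have := h 0; simp only [d] at *; omega
  | s + 1, x, y, h => by
    have := h 0
    rw [d_succ, d_succ, d_succ, ← d_add s _ _ fun t => by simpa only [d_succ] using h (t + 1)]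
    simp only [d] at this
    congr 1; omega

def Z (x : ℕ) (f : ℕ → Bool) : Prop := ∀ s, d x s = (f s).toNat

lemma Z_and {x y : ℕ} {f g : ℕ → Bool} (a : Z x f) (b : Z y g) : Z (x &&& y) fun s => f s && g s :=
  fun s => by
    have := a s
    have := b s
    simp only [d, Nat.and_div_two_pow, Nat.and_mod_two_pow] at *
    cases h : f s <;> cases k : g s <;> simp_all

lemma Z_or {x y : ℕ} {f g : ℕ → Bool} (a : Z x f) (b : Z y g) : Z (x ||| y) fun s => f s || g s :=
  fun s => by
    have := a s
    have := b s
    simp only [d, Nat.or_div_two_pow, Nat.or_mod_two_pow] at *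
    cases h : f s <;> cases k : g s <;> simp_all

def mk (f : ℕ → Bool) : ℕ → ℕ → ℕ
  | _, 0 => 0
  | a, n + 1 => (f a).toNat + 512 * mk f (a + 1) n

lemma Z_mk (f : ℕ → Bool) : ∀ n a, Z (mk f a n) fun s => decide (s < n) && f (a + s)
  | 0, _, s => by simp [mk, d]
  | n + 1, a, 0 => by cases h : f a <;> simp [mk, d, h]
  | n + 1, a, s + 1 => by
    rw [d_succ, mk, show ((f a).toNat + 512 * mk f (a + 1) n) / 512 = mk f (a + 1) n by
      have := (f a).toNat_le; omega, Z_mk f n]
    simp [add_assoc, add_comm 1]

def Y (i : ℕ) : ℕ := (512 ^ 4096 - 1) / (512 ^ 2 ^ i + 1) / 511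
def X (i : ℕ) : ℕ := Y i * 512 ^ 2 ^ i

def dbl (f : ℕ → Bool) : ℕ → ℕ → ℕ
  | a, 0 => (f a).toNat
  | a, n + 1 => dbl f a n + 512 ^ 2 ^ n * dbl f (a + 2 ^ n) n

lemma mk_add (f : ℕ → Bool) (m : ℕ) : ∀ n a, mk f a (n + m) = mk f a n + 512 ^ n * mk f (a + n) m
  | 0, a => by simp [mk]
  | n + 1, a => by
    rw [add_right_comm, mk, mk, mk_add f m n, add_assoc a, add_comm 1]; ring

lemma dbl_eq (f : ℕ → Bool) : ∀ n a, dbl f a n = mk f a (2 ^ n)
  | 0, a => by simp [mk, dbl]
  | n + 1, a => by rw [dbl, dbl_eq f n, dbl_eq f n, pow_succ, mul_two, mk_add]

lemma XY : ∀ i < 12, X i = dbl (·.testBit i) 0 12 ∧ Y i = dbl (!·.testBit i) 0 12 := by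
  decide +kernel

def C (k : ℕ) : List ℕ → ℕ
  | [] => Y 0 ||| X 0
  | i :: l => (Y i ||| X (dg k i)) &&& C k l

def T : List ℕ → ℕ → ℕ
  | [], 0 => 0
  | [], c + 1 => c + 1
  | k :: t, 0 => T t (C k (List.range 12))
  | k :: t, c + 1 => T t (C k (List.range 12) + (c + 1))

lemma T_eq : ∀ l c, T l c = (l.map (C · (List.range 12))).sum + c
  | [], 0 => rfl
  | [], c + 1 => by simp [T]
  | k :: t, 0 => by simp [T, T_eq t, add_comm]
  | k :: t, c + 1 => by simp only [T, T_eq t, List.map_cons, List.sum_cons]; ring

lemma Z_C (k : ℕ) : ∀ l : List ℕ, (∀ i ∈ l, i < 12) → Z (C k l) fun s =>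
    decide (s < 2 ^ 12) && l.all fun i => !s.testBit i || s.testBit (dg k i) := by
  have x : ∀ i < 12, Z (X i) fun s => decide (s < 2 ^ 12) && s.testBit i := fun i h => by
    rw [(XY i h).1, dbl_eq]
    simpa only [zero_add] using Z_mk (·.testBit i) (2 ^ 12) 0
  have y : ∀ i < 12, Z (Y i) fun s => decide (s < 2 ^ 12) && !s.testBit i := fun i h => by
    rw [(XY i h).2, dbl_eq]
    simpa only [zero_add] using Z_mk (!·.testBit i) (2 ^ 12) 0
  intro l h
  induction l with
  | nil => exact fun s => (Z_or (y 0 (by omega)) (x 0 (by omega)) s).trans (by
      beta_reduce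
      generalize s.testBit 0 = b, decide (s < 2 ^ 12) = c
      cases b <;> cases c <;> rfl)
  | cons i l ih =>
    refine fun s => (Z_and (Z_or (y i (h i (.head _))) (x _ (Nat.mod_lt _ (by omega))))
      (ih fun j hj => h j (.tail _ hj)) s).trans ?_
    beta_reduce
    generalize decide (s < 2 ^ 12) = c
    cases c <;> simp [dg]

lemma d_sum : ∀ l : List ℕ, l.length < 512 → ∀ s, d (l.map (C · (List.range 12))).sum s =
    l.countP fun k => decide (s < 2 ^ 12) && cl s k
  | [], _, s => by simp [d]
  | k :: l, h, s => by
    have a := Z_C k _ fun i => List.mem_range.1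
    have b := d_sum l (by simp at h; omega)
    rw [List.map_cons, List.sum_cons, d_add _ _ _ fun t => by
      rw [a, b]
      exact (add_le_add (Bool.toNat_le _) List.countP_le_length).trans_lt (by simp at h; omega),
      a, b, List.countP_cons, add_comm, cl]
    beta_reduce
    generalize (decide (s < 2 ^ 12) && _) = c
    cases c <;> rfl

def fin : ℕ → Bool
  | 0 => false
  | t + 1 => (List.range 64).all fun a => (List.range 64).all fun b =>
    !((List.range 12).countP (Nat.add (Nat.mul 64 a) b).testBit).beq 6 ||
      (d t.succ (Nat.add (Nat.mul 64 a) b)).beq 10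

lemma chk {M : List ℕ} (hl : M.length < 512) (f : fin (T M 0)) (s : ℕ) (hs : s < 4096)
    (h : (List.range 12).countP s.testBit = 6) : M.countP (cl s) = 10 := by
  have e := d_sum M hl s
  rw [← add_zero (List.sum _), ← T_eq, decide_eq_true (by omega)] at e
  generalize T M 0 = t at f e
  cases t with
  | zero => exact absurd f (by simp [fin])
  | succ t =>
    simp only [fin, List.all_eq_true, List.mem_range] at f
    have := f (s / 64) (by omega) (s % 64) (by omega)
    rw [show Nat.add (Nat.mul 64 (s / 64)) (s % 64) = s from Nat.div_add_mod s 64, h] at this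
    simpa [e] using this

def good (k : ℕ) : Bool := k.blt (16 ^ 12) && (List.range 12).all fun i =>
  (k / 16 ^ i % 16).blt 12 && !(dg k i).beq i && (dg k (dg k i)).beq i

def srt : ℕ → List ℕ → Bool
  | _, [] => true
  | a, b :: t => a.blt b && srt b t

lemma srt_ok : ∀ (l : List ℕ) (a : ℕ), srt a l → (a :: l).IsChain (· < ·)
  | [], _, _ => .singleton _
  | b :: t, a, h => by
    simp only [srt, Bool.and_eq_true, Nat.blt_eq] at h
    exact .cons_cons h.1 (srt_ok t b h.2)

lemma pm {k : ℕ} (h : good k) :
    (∀ i < 12, k / 16 ^ i % 16 < 12 ∧ dg k i ≠ i ∧ dg k (dg k i) = i) ∧ k < 16 ^ 12 := by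
  simp only [good, Bool.and_eq_true, Nat.blt_eq, List.all_eq_true, Nat.beq_eq, Bool.not_eq_true',
    ← Bool.not_eq_true, List.mem_range] at h
  exact ⟨fun i hi => and_assoc.1 (h.2 i hi), h.1⟩

lemma dig : ∀ n a b : ℕ, a < 16 ^ n → b < 16 ^ n →
    (∀ i < n, a / 16 ^ i % 16 = b / 16 ^ i % 16) → a = b
  | 0, a, b, x, y, _ => by omega
  | n + 1, a, b, x, y, h => by
    have := dig n (a / 16) (b / 16) (by omega) (by omega) fun i hi => by
      simpa only [Nat.div_div_eq_div_mul, ← pow_succ'] using h (i + 1) (by omega)
    have := h 0 (by omega)
    omega

lemma inj {a b : ℕ} (ha : good a) (hb : good b) (e : fn a = fn b) : a = b :=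
  dig 12 a b (pm ha).2 (pm hb).2 fun i hi => by
    rw [← Nat.mod_eq_of_lt ((pm ha).1 i hi).1, ← Nat.mod_eq_of_lt ((pm hb).1 i hi).1]
    exact congrArg (fun f => (f ⟨i, hi⟩ : ℕ)) e

lemma isPM {k : ℕ} (h : good k) : IsPM (fn k) := fun x =>
  ⟨fun e => ((pm h).1 x x.2).2.1 (congrArg Fin.val e), Fin.ext ((pm h).1 x x.2).2.2⟩

lemma main {M : List ℕ} (g : ∀ k ∈ M, good k) (hn : M.Nodup) (hl : M.length < 512)
    (f : fin (T M 0)) (S : Finset (Fin 12)) (hS : #S = 6) :
    #{m ∈ (M.map fn).toFinset | ∀ x ∈ S, m x ∈ S} = 10 := by
  have nd : (M.map fn).Nodup := hn.map_on fun a ha b hb => inj (g a ha) (g b hb)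
  obtain ⟨s, hs, e⟩ : ∃ s < 4096, ∀ i : Fin 12, s.testBit i = decide (i ∈ S) :=
    ⟨(BitVec.ofBoolListLE (List.ofFn fun i : Fin 12 => decide (i ∈ S))).toNat,
      by simpa using (BitVec.ofBoolListLE (List.ofFn fun i : Fin 12 => decide (i ∈ S))).isLt,
      fun i => by
        rw [BitVec.testBit_toNat, BitVec.getLsbD_ofBoolListLE]; fin_cases i <;> rfl⟩
  have r : List.range 12 = (List.finRange 12).map Fin.val := by decide
  have c := chk hl f s hs (by
    rw [r, List.countP_map, List.countP_eq_length_filter, ← List.toFinset_card_of_nodup
      ((List.nodup_finRange 12).filter _), ← hS]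
    congr 1; ext; simp [e])
  rw [← c, List.countP_eq_length_filter, ← List.length_map fn,
    ← List.toFinset_card_of_nodup (nd.sublist (List.filter_sublist.map fn))]
  congr 1
  ext m
  have : ∀ k, cl s k = true ↔ ∀ x ∈ S, fn k x ∈ S := fun k => by
    simp only [cl, r, List.all_map, List.all_eq_true, List.mem_finRange, Function.comp,
      forall_true_left, show ∀ i : Fin 12, dg k i = (fn k i : ℕ) from fun _ => rfl, e]
    simp [imp_iff_not_or]
  simp only [mem_filter, List.mem_toFinset, List.mem_map, List.mem_filter, this]
  exact ⟨fun ⟨⟨k, a, b⟩, d⟩ => ⟨k, ⟨a, b ▸ d⟩, b⟩, fun ⟨k, ⟨a, d⟩, b⟩ => ⟨⟨k, a, b⟩, b ▸ d⟩⟩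

lemma c1 : L.all fun k => good k && !k.beq 188606631453441 := by decide +kernel
lemma c2 : srt 0 L := by decide +kernel
lemma c3 : fin (T L 0) := by decide +kernel
lemma c4 : L.length < 512 := by decide +kernel

theorem result : ∃ n c : ℕ, 6 ≤ n ∧ ∃ D : Finset (Fin (2 * n) → Fin (2 * n)), IsFact n c D ∧
    ∃ m, IsPM m ∧ m ∉ D := by
  have g := c1
  have nd := (List.isChain_iff_pairwise.1 (srt_ok L 0 c2)).nodup.of_cons
  have f := c3
  have hl := c4
  generalize L = M at g nd f hl
  simp only [List.all_eq_true, Bool.and_eq_true] at g
  have A := main (fun k h => (g k h).1) nd hl f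
  have gx : good 188606631453441 := by decide +kernel
  refine ⟨6, 10, by omega, (M.map fn).toFinset, ⟨?_, fun m h => ?_, by omega, A⟩,
    fn 188606631453441, isPM gx, fun h => ?_⟩
  · exact (card_pos.1 ((A {0, 1, 2, 3, 4, 5} (by decide)).symm ▸ (by omega : 0 < 10))).mono
      (filter_subset _ _)
  · obtain ⟨k, a, rfl⟩ := List.mem_map.1 (List.mem_toFinset.1 h)
    exact isPM (g k a).1
  · obtain ⟨k, a, e⟩ := List.mem_map.1 (List.mem_toFinset.1 h)
    simpa [inj (g k a).1 gx e] using (g k a).2

end Pool.Agent.Results.MP_3f0bb6_co.Full
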